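import Pool.Agent.Helper65.LD4.PC
import Pool.Agent.Helper52.LD4.STP0

/-!
# Project LD4, block STP: one block of a stage
-/

set_option autoImplicit false

namespace Pool.Agent.Helper52.LD4

open Set MeasureTheory Filter Topology
open Pool.Agent.Helper41.LD (av var haar DiscLe Dioph Kk)
open Pool.Agent.Helper41.LD2 (EqA)
open Pool.Agent.Helper41.LD3
open Pool.Agent.Helper41.LD4
open Pool.Agent.Helper65.LD4 (stage_PC4)

variable {κ : ℕ} {τ : ℕ → ℝ} {ty : ℕ → ℕ × ℕ × ℕ} {g Q R CF DF Cb m Cq G K : ℕ}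

/-- one block of a stage -/
theorem stage_step4 (H : Cst4 τ ty g Q R CF DF Cb m Cq G) (B : Big4 κ τ ty g Q R DF Cb m Cq G K) {c : ℝ → ℝ} (hc : ∀ y, RatPow y → c y = 0)
    {ℓst ℓ a : ℝ} (hℓ : 0 < ℓ) (hst : ℓ ≤ ℓst) (hst1 : ℓst ≤ 1)
    (hT : ∀ s < g * Q, tm τ Q s ℓ - tm τ Q s ℓst ≤ 2 ^ (K + 1) * (G * K ^ (2 * κ + 1)))
    (hgood : GoodF4 τ ty c g Q R G κ ℓst K a ℓ) :
    (1 / 2 : ℝ) ^ (3 * K) * ((2 ^ (K ^ (2 * κ + 1)) : ℕ) : ℝ) ≤ (by classical exact (((Finset.range (2 ^ (K ^ (2 * κ + 1)))).filter fun b : ℕ =>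
      GoodF4 τ ty c g Q R G κ ℓst K (a + b * (ℓ / (2 ^ (K ^ (2 * κ + 1)) : ℕ))) (ℓ / (2 ^ (K ^ (2 * κ + 1)) : ℕ))).card : ℝ)) := by
  classical
  have h := stage_step4_of H B hℓ hst hst1 hT hgood fun hT' => stage_PC4 H B hc hℓ hst hst1 hT' (a := a)
  exact h

end Pool.Agent.Helper52.LD4
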